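import Mathlib

set_option autoImplicit false

namespace Pool.Agent.H131Z.Hit

open Finset

/-- weight of an ordering -/
noncomputable def wt {α : Type} (f : α → ℝ) (l : List α) : ℝ :=
  ∏ t ∈ Finset.range l.length,
    (if 0 < ((l.drop t).map f).sum
      then (((l.drop t).take 1).map f).sum / ((l.drop t).map f).sum
      else 1 / ((l.drop t).length : ℝ))

lemma wt_nonneg {α : Type} (f : α → ℝ) (hf : ∀ a, 0 ≤ f a) (l : List α) : 0 ≤ wt f l := by
  unfold wt
  refine Finset.prod_nonneg fun t _ => ?_
  split_ifs with h
  · refine div_nonneg ?_ h.le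
    refine List.sum_nonneg ?_
    intro x hx
    obtain ⟨a, -, rfl⟩ := List.mem_map.1 hx
    exact hf a
  · positivity

lemma wt_cons {α : Type} (f : α → ℝ) (a : α) (l : List α) :
    wt f (a :: l) = (if 0 < ((a :: l).map f).sum then f a / ((a :: l).map f).sum
      else 1 / ((a :: l).length : ℝ)) * wt f l := by
  unfold wt
  rw [List.length_cons, Finset.prod_range_succ', mul_comm]
  simp

lemma sum_wt_le_one {α : Type} [DecidableEq α] (f : α → ℝ) (hf : ∀ a, 0 ≤ f a) :
    ∀ (n : ℕ) (L : List α), L.Nodup → L.length = n → ∑ l ∈ L.permutations.toFinset, wt f l ≤ 1 := by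
  intro n
  induction n with
  | zero =>
    intro L _ hL
    rw [List.length_eq_zero_iff] at hL
    subst hL
    simp [wt]
  | succ n ih =>
    intro L hnd hL
    set c : α → ℝ := fun a => if 0 < (L.map f).sum then f a / (L.map f).sum
      else 1 / (L.length : ℝ) with hc
    have hc0 : ∀ a, 0 ≤ c a := by
      intro a
      simp only [hc]
      split_ifs with h
      · exact div_nonneg (hf a) h.le
      · positivity
    have hsub : L.permutations.toFinset ⊆ L.toFinset.biUnion
        (fun a => ((L.erase a).permutations.toFinset).image (fun l => a :: l)) := by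
      intro l hl
      rw [List.mem_toFinset, List.mem_permutations] at hl
      have hlen := hl.length_eq
      cases l with
      | nil => simp [hL] at hlen
      | cons a l =>
        have ha : a ∈ L := hl.subset (List.mem_cons_self)
        rw [Finset.mem_biUnion]
        refine ⟨a, List.mem_toFinset.2 ha, ?_⟩
        rw [Finset.mem_image]
        refine ⟨l, ?_, rfl⟩
        rw [List.mem_toFinset, List.mem_permutations]
        exact (List.cons_perm_iff_perm_erase.1 hl).2
    calc ∑ l ∈ L.permutations.toFinset, wt f l
        ≤ ∑ l ∈ L.toFinset.biUnion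
            (fun a => ((L.erase a).permutations.toFinset).image (fun l => a :: l)), wt f l :=
          Finset.sum_le_sum_of_subset_of_nonneg hsub (fun l _ _ => wt_nonneg f hf l)
      _ = ∑ a ∈ L.toFinset, ∑ l ∈ ((L.erase a).permutations.toFinset).image (fun l => a :: l),
            wt f l := by
          refine Finset.sum_biUnion ?_
          intro a _ b _ hab
          rw [Function.onFun, Finset.disjoint_left]
          intro l h1 h2
          obtain ⟨l1, -, rfl⟩ := Finset.mem_image.1 h1
          obtain ⟨l2, -, h⟩ := Finset.mem_image.1 h2
          exact hab (List.cons.inj h).1.symm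
      _ ≤ ∑ a ∈ L.toFinset, c a := by
          refine Finset.sum_le_sum fun a ha => ?_
          rw [List.mem_toFinset] at ha
          rw [Finset.sum_image (fun x _ y _ h => (List.cons.inj h).2)]
          have : ∀ l ∈ (L.erase a).permutations.toFinset, wt f (a :: l) = c a * wt f l := by
            intro l hl
            rw [List.mem_toFinset, List.mem_permutations] at hl
            have hp : (a :: l).Perm L := List.cons_perm_iff_perm_erase.2 ⟨ha, hl⟩
            rw [wt_cons, (hp.map f).sum_eq, hp.length_eq]
          rw [Finset.sum_congr rfl this, ← Finset.mul_sum]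
          have h1 := ih (L.erase a) (hnd.erase a) (by rw [List.length_erase_of_mem ha, hL]; rfl)
          nlinarith [hc0 a]
      _ ≤ 1 := by
          simp only [hc]
          split_ifs with h
          · rw [← Finset.sum_div, List.sum_toFinset f hnd, div_self h.ne']
          · rw [Finset.sum_const, List.toFinset_card_of_nodup hnd, nsmul_eq_mul, hL]
            rw [mul_one_div, div_self (by positivity)]

/-- if the weight is nonzero and an invisible item sits at position `s`, all visible items come
before position `s`. -/
lemma visible_before {α : Type} (f : α → ℝ) (hf : ∀ a, 0 ≤ f a) (l : List α) (hw : wt f l ≠ 0)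
    (s : ℕ) (hs : s < l.length) (h0 : f l[s] = 0) (a : α) (ha : a ∈ l) (hfa : 0 < f a) :
    a ∈ l.take s := by
  unfold wt at hw
  rw [Finset.prod_ne_zero_iff] at hw
  have h := hw s (Finset.mem_range.2 hs)
  have hz : ¬ 0 < ((l.drop s).map f).sum := by
    intro hpos
    rw [if_pos hpos] at h
    apply h
    have e : (l.drop s).take 1 = [l[s]] := by
      rw [List.drop_eq_getElem_cons hs]; rfl
    rw [e]
    simp [h0]
  have : a ∈ l.take s ∨ a ∈ l.drop s := by
    rw [← List.mem_append, List.take_append_drop]; exact ha
  rcases this with h1 | h1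
  · exact h1
  · exfalso
    apply hz
    refine lt_of_lt_of_le hfa ?_
    refine List.single_le_sum ?_ _ (List.mem_map.2 ⟨a, h1, rfl⟩)
    intro x hx
    obtain ⟨b, -, rfl⟩ := List.mem_map.1 hx
    exact hf b

end Pool.Agent.H131Z.Hit
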