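import Mathlib
import Pool.Agent.H131Z.HitPerm

set_option autoImplicit false

namespace Pool.Agent.H131Z.Hit

open Finset

/-- deterministic part: if the visible graph has no isolated vertex but has a cut that no visible
pair crosses, then along every ordering of nonzero weight the two hitting times differ. -/
lemma times_ne {n : ℕ} (hn : 1 < n) (w : Fin n → Fin n → ℝ) (hw0 : ∀ i j, 0 ≤ w i j)
    (hsymm : ∀ i j, w i j = w j i)
    (hdeg : ∀ i, ∃ j, j ≠ i ∧ 0 < w i j)
    (c : Fin n → Prop) (u v : Fin n) (hu : c u) (hv : ¬ c v)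
    (hcut : ∀ i j, c i → ¬ c j → w i j = 0)
    (l : List (Fin n × Fin n)) (hl : ∀ p : Fin n × Fin n, p ∈ l ↔ p.1 < p.2)
    (hwt : wt (fun p : Fin n × Fin n => w p.1 p.2) l ≠ 0)
    (A B : Set ℕ)
    (hA : ∀ t, t ∈ A ↔ (t ≤ l.length ∧ 1 < n ∧ ∀ S : Finset (Fin n), S.card < 1 →
      ((SimpleGraph.fromRel (fun i j : Fin n => (i, j) ∈ l.take t)).induce
        ((↑S : Set (Fin n))ᶜ)).Connected))
    (hB : ∀ t, t ≤ l.length → (∀ i : Fin n, ∃ j,
      (SimpleGraph.fromRel (fun i j : Fin n => (i, j) ∈ l.take t)).Adj i j) → t ∈ B) :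
    sInf A ≠ sInf B := by
  intro hAB
  have hAne : A.Nonempty := by
    refine ⟨l.length, (hA _).2 ⟨le_rfl, hn, ?_⟩⟩
    intro S hS
    have hS0 : S = ∅ := by
      rw [← Finset.card_eq_zero]; omega
    subst hS0
    haveI : Nonempty ((↑(∅ : Finset (Fin n)) : Set (Fin n))ᶜ : Set (Fin n)) := ⟨⟨u, by simp⟩⟩
    refine SimpleGraph.Connected.mk ?_
    intro a b
    by_cases hab : a = b
    · subst hab; exact SimpleGraph.Reachable.refl _
    · apply SimpleGraph.Adj.reachable
      have hab' : (a : Fin n) ≠ b := fun h => hab (Subtype.ext h)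
      simp only [SimpleGraph.comap_adj, Function.Embedding.subtype_apply,
        SimpleGraph.fromRel_adj, List.take_length]
      refine ⟨hab', ?_⟩
      rw [hl, hl]
      exact lt_or_gt_of_ne hab'
  have hmem := (hA _).1 (Nat.sInf_mem hAne)
  obtain ⟨hle, -, hconn⟩ := hmem
  have hc := (hconn ∅ (by simp)).preconnected ⟨u, by simp⟩ ⟨v, by simp⟩
  -- there is a crossing edge
  have hcross : ∃ p ∈ l.take (sInf A), w p.1 p.2 = 0 := by
    by_contra hno
    push Not at hno
    have key : ∀ a b : ((↑(∅ : Finset (Fin n)) : Set (Fin n))ᶜ : Set (Fin n)),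
        ((SimpleGraph.fromRel (fun i j : Fin n => (i, j) ∈ l.take (sInf A))).induce
          ((↑(∅ : Finset (Fin n)) : Set (Fin n))ᶜ)).Reachable a b → c a → c b := by
      rintro a b ⟨p⟩
      induction p with
      | nil => exact id
      | @cons a a' b' h p ih =>
        intro ha
        apply ih
        by_contra ha'
        simp only [SimpleGraph.comap_adj, Function.Embedding.subtype_apply,
          SimpleGraph.fromRel_adj] at h
        rcases h.2 with h1 | h1
        · exact hno _ h1 (hcut _ _ ha ha')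
        · exact hno _ h1 (by rw [hsymm]; exact hcut _ _ ha ha')
    exact hv (key _ _ hc hu)
  obtain ⟨p, hp, hp0⟩ := hcross
  obtain ⟨s, hs, hps⟩ := List.getElem_of_mem hp
  have hs1 : s < sInf A := lt_of_lt_of_le hs (List.length_take_le _ _)
  have hs2 : s < l.length := lt_of_lt_of_le hs1 hle
  have hps' : l[s] = p := by rw [← hps, List.getElem_take]
  have hvis := visible_before (fun p : Fin n × Fin n => w p.1 p.2) (fun p => hw0 _ _) l hwt s hs2
    (by rw [hps']; exact hp0)
  have hsB : s ∈ B := by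
    refine hB s hs2.le ?_
    intro i
    obtain ⟨j, hji, hj⟩ := hdeg i
    refine ⟨j, ?_⟩
    rw [SimpleGraph.fromRel_adj]
    refine ⟨hji.symm, ?_⟩
    rcases lt_or_gt_of_ne hji with h | h
    · right
      exact hvis (j, i) ((hl _).2 h) (by simp only; rw [hsymm]; exact hj)
    · left
      exact hvis (i, j) ((hl _).2 h) hj
  have := Nat.sInf_le hsB
  omega

end Pool.Agent.H131Z.Hit
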