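import Mathlib
import Pool.Agent.H131Z.HitDet

set_option autoImplicit false

namespace Pool.Agent.H131Z.Hit

open MeasureTheory Finset

variable {Ω : Type} [MeasurableSpace Ω] (μ : Measure Ω) [IsProbabilityMeasure μ] (τ : Ω → ℕ)

lemma tail (hτ : Measurable τ) (hq : ∀ k, μ.real {a | τ a = k} = 99 / 100 ^ (k + 1)) (m : ℕ) :
    μ.real {a | m ≤ τ a} = 1 / 100 ^ m := by
  induction m with
  | zero => simp
  | succ m ih =>
    have e : {a | m ≤ τ a} = {a | τ a = m} ∪ {a | m + 1 ≤ τ a} := by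
      ext a; simp only [Set.mem_setOf_eq, Set.mem_union]; omega
    have hd : Disjoint {a | τ a = m} {a | m + 1 ≤ τ a} := by
      rw [Set.disjoint_left]; intro a h1 h2; simp only [Set.mem_setOf_eq] at h1 h2; omega
    have hm : MeasurableSet {a | m + 1 ≤ τ a} := hτ (MeasurableSet.of_discrete (s := {k | m + 1 ≤ k}))
    rw [e, measureReal_union hd hm, hq] at ih
    have : μ.real {a | m + 1 ≤ τ a} = 1 / 100 ^ m - 99 / 100 ^ (m + 1) := by linarith
    rw [this]; field_simp; ring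

lemma one_sub_pow_le (q : ℝ) (hq0 : 0 < q) (hq1 : q ≤ 1) (h : ℕ) (hh : 0 < h) :
    (1 - q) ^ h ≤ 1 / (h * q) := by
  have h1 : (1 - q) ^ h * (1 + h * q) ≤ 1 := by
    have h2 : 1 + h * q ≤ (1 + q) ^ h := one_add_mul_le_pow (by linarith) h
    calc (1 - q) ^ h * (1 + h * q) ≤ (1 - q) ^ h * (1 + q) ^ h :=
          mul_le_mul_of_nonneg_left h2 (pow_nonneg (by linarith) _)
      _ = (1 - q ^ 2) ^ h := by rw [← mul_pow]; congr 1; ring
      _ ≤ 1 := pow_le_one₀ (by nlinarith) (by nlinarith)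
  have hpos : (0 : ℝ) < h * q := by positivity
  rw [le_div_iff₀ hpos]
  nlinarith [pow_nonneg (show (0 : ℝ) ≤ 1 - q by linarith) h]

lemma miss (hτ : Measurable τ) (hq : ∀ k, μ.real {a | τ a = k} = 99 / 100 ^ (k + 1))
    {n : ℕ} (H : Finset (Fin n)) (hH : 0 < H.card) (k : ℕ) :
    (Measure.pi (fun _ : Fin n => μ)).real {x | ∀ i ∈ H, τ (x i) ≠ k}
      ≤ 100 ^ (k + 1) / (99 * H.card) := by
  have e : {x : Fin n → Ω | ∀ i ∈ H, τ (x i) ≠ k} = (H : Set (Fin n)).pi (fun _ => {a | τ a = k}ᶜ) := by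
    ext x; simp [Set.mem_pi]
  have hm : MeasurableSet {a | τ a = k} := hτ (MeasurableSet.singleton k)
  rw [e, measureReal_def, Measure.pi_pi_finset, Finset.prod_const, ENNReal.toReal_pow,
    ← measureReal_def, probReal_compl_eq_one_sub hm, hq]
  have h1 : (99 : ℝ) / 100 ^ (k + 1) ≤ 1 := by
    rw [div_le_one (by positivity), pow_succ]
    have : (1 : ℝ) ≤ 100 ^ k := one_le_pow₀ (by norm_num)
    linarith
  refine (one_sub_pow_le _ (by positivity) h1 _ hH).trans (le_of_eq ?_)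
  have : (0 : ℝ) < H.card := by exact_mod_cast hH
  field_simp

/-- the exceptional event -/
def Bad {n : ℕ} (H1 H2 : Finset (Fin n)) (m : ℕ) : Set (Fin n → Ω) :=
  (⋃ i ∈ (Finset.univ : Finset (Fin n)), {x | m + 1 ≤ τ (x i)}) ∪
    ⋃ k ∈ Finset.range (m + 1), ({x | ∀ i ∈ H1, τ (x i) ≠ k} ∪ {x | ∀ i ∈ H2, τ (x i) ≠ k})

lemma measurable_Bad (hτ : Measurable τ) {n : ℕ} (H1 H2 : Finset (Fin n)) (m : ℕ) :
    MeasurableSet (Bad τ H1 H2 m) := by
  have hg : Measurable (fun (x : Fin n → Ω) (i : Fin n) => τ (x i)) :=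
    measurable_pi_lambda _ fun i => hτ.comp (measurable_pi_apply i)
  have : Bad τ H1 H2 m = (fun (x : Fin n → Ω) (i : Fin n) => τ (x i)) ⁻¹'
      (Bad (fun k : ℕ => k) H1 H2 m) := by
    ext x; simp [Bad]
  rw [this]
  exact hg MeasurableSet.of_discrete

lemma geom_sum_le (m : ℕ) : ∑ k ∈ Finset.range (m + 1), (100 : ℝ) ^ (k + 1) ≤ 100 ^ (m + 2) / 99 := by
  induction m with
  | zero => norm_num
  | succ m ih =>
    rw [Finset.sum_range_succ]
    have : (100 : ℝ) ^ (m + 1 + 2) / 99 = 100 ^ (m + 2) / 99 + 100 ^ (m + 1 + 1) := by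
      field_simp; ring
    linarith

lemma Bad_le (hτ : Measurable τ) (hq : ∀ k, μ.real {a | τ a = k} = 99 / 100 ^ (k + 1))
    (m : ℕ) {n : ℕ} (hn : n = 10 * 100 ^ m) (H1 H2 : Finset (Fin n))
    (h1 : H1.card = 5 * 100 ^ m) (h2 : H2.card = 5 * 100 ^ m) :
    (Measure.pi (fun _ : Fin n => μ)).real (Bad τ H1 H2 m) ≤ 6 / 10 := by
  set P := Measure.pi (fun _ : Fin n => μ) with hP
  have hA : P.real (⋃ i ∈ (Finset.univ : Finset (Fin n)), {x | m + 1 ≤ τ (x i)}) ≤ 1 / 10 := by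
    refine (measureReal_biUnion_finset_le _ _).trans ?_
    have : ∀ i ∈ (Finset.univ : Finset (Fin n)),
        P.real {x : Fin n → Ω | m + 1 ≤ τ (x i)} = 1 / 100 ^ (m + 1) := by
      intro i _
      have e : {x : Fin n → Ω | m + 1 ≤ τ (x i)}
          = (({i} : Finset (Fin n)) : Set (Fin n)).pi (fun _ => {a | m + 1 ≤ τ a}) := by
        ext x; simp [Set.mem_pi]
      rw [e, measureReal_def, hP, Measure.pi_pi_finset, Finset.prod_singleton, ← measureReal_def,
        tail μ τ hτ hq]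
    rw [Finset.sum_congr rfl this, Finset.sum_const, Finset.card_univ, Fintype.card_fin, hn,
      nsmul_eq_mul]
    push_cast
    apply le_of_eq
    field_simp; ring
  have hB : P.real (⋃ k ∈ Finset.range (m + 1),
      ({x | ∀ i ∈ H1, τ (x i) ≠ k} ∪ {x | ∀ i ∈ H2, τ (x i) ≠ k})) ≤ 5 / 10 := by
    refine (measureReal_biUnion_finset_le _ _).trans ?_
    have : ∀ k ∈ Finset.range (m + 1),
        P.real ({x : Fin n → Ω | ∀ i ∈ H1, τ (x i) ≠ k} ∪ {x | ∀ i ∈ H2, τ (x i) ≠ k})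
          ≤ 100 ^ (k + 1) * (2 / (495 * 100 ^ m)) := by
      intro k _
      refine (measureReal_union_le _ _).trans ?_
      have a1 := miss μ τ hτ hq H1 (by rw [h1]; positivity) k
      have a2 := miss μ τ hτ hq H2 (by rw [h2]; positivity) k
      rw [h1] at a1
      rw [h2] at a2
      push_cast at a1 a2
      refine (add_le_add a1 a2).trans (le_of_eq ?_)
      field_simp; ring
    refine (Finset.sum_le_sum this).trans ?_
    rw [← Finset.sum_mul]
    refine (mul_le_mul_of_nonneg_right (geom_sum_le m) (by positivity)).trans ?_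
    have : (100 : ℝ) ^ (m + 2) / 99 * (2 / (495 * 100 ^ m)) = 20000 / (99 * 495) := by
      field_simp; ring
    rw [this]; norm_num
  unfold Bad
  refine (measureReal_union_le _ _).trans ?_
  linarith

/-- the threshold graphon -/
noncomputable def Wg (a b : Ω) : ℝ := if τ a = τ b ∨ Even (max (τ a) (τ b)) then 1 else 0

omit [MeasurableSpace Ω] in
lemma Wg_symm (a b : Ω) : Wg τ a b = Wg τ b a := by
  unfold Wg
  simp only [eq_comm (a := τ a), max_comm (τ a)]

omit [MeasurableSpace Ω] in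
lemma Wg_mem (a b : Ω) : 0 ≤ Wg τ a b ∧ Wg τ a b ≤ 1 := by
  unfold Wg
  split_ifs <;> norm_num

lemma Wg_measurable (hτ : Measurable τ) : Measurable (Function.uncurry (Wg τ)) := by
  have hg : Measurable (fun p : Ω × Ω => (τ p.1, τ p.2)) :=
    (hτ.comp measurable_fst).prodMk (hτ.comp measurable_snd)
  have : Function.uncurry (Wg τ) = (Function.uncurry (Wg (fun k : ℕ => k))) ∘
      (fun p : Ω × Ω => (τ p.1, τ p.2)) := by
    ext p; rfl
  rw [this]
  exact Measurable.of_discrete.comp hg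

lemma exists_piece (A : Set Ω) (hA : 0 < μ A) : ∃ k, 0 < μ (A ∩ {a | τ a = k}) := by
  by_contra h
  push Not at h
  have e : A = ⋃ k, A ∩ {a | τ a = k} := by
    ext a; simp
  have : μ (⋃ k, A ∩ {a | τ a = k}) = 0 :=
    measure_iUnion_null fun k => le_antisymm (h k) (zero_le)
  rw [← e] at this
  exact hA.ne' this

lemma Wg_connected (hτ : Measurable τ) (hq : ∀ k, μ.real {a | τ a = k} = 99 / 100 ^ (k + 1))
    (A : Set Ω) (hA : MeasurableSet A) (h0 : 0 < μ A) (h1 : μ A < 1) :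
    0 < ∫ p in A ×ˢ Aᶜ, Wg τ p.1 p.2 ∂(μ.prod μ) := by
  have h0' : 0 < μ Aᶜ := by
    rw [prob_compl_eq_one_sub hA]
    exact tsub_pos_of_lt h1
  obtain ⟨a, ha⟩ := exists_piece μ τ A h0
  obtain ⟨b, hb⟩ := exists_piece μ τ Aᶜ h0'
  have hc : 0 < μ {x | τ x = 2 * (a + b)} := by
    have := hq (2 * (a + b))
    rw [pos_iff_ne_zero]
    intro h
    rw [measureReal_def, h] at this
    simp at this
    exact absurd this (by positivity)
  have hex : ∃ k l : ℕ, Even (max k l) ∧ 0 < μ (A ∩ {x | τ x = k}) ∧ 0 < μ (Aᶜ ∩ {x | τ x = l}) := by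
    by_cases h : 0 < μ (A ∩ {x | τ x = 2 * (a + b)})
    · refine ⟨_, b, ?_, h, hb⟩
      rw [max_eq_left (by omega)]; exact even_two_mul _
    · refine ⟨a, 2 * (a + b), ?_, ha, ?_⟩
      · rw [max_eq_right (by omega)]; exact even_two_mul _
      · have h' : μ (A ∩ {x | τ x = 2 * (a + b)}) = 0 := by simpa using h
        have hle : μ {x | τ x = 2 * (a + b)} ≤
            μ (A ∩ {x | τ x = 2 * (a + b)}) + μ (Aᶜ ∩ {x | τ x = 2 * (a + b)}) := by
          refine le_trans (measure_mono ?_) (measure_union_le _ _)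
          intro x hx
          by_cases hxA : x ∈ A
          · exact Or.inl ⟨hxA, hx⟩
          · exact Or.inr ⟨hxA, hx⟩
        rw [h', zero_add] at hle
        exact lt_of_lt_of_le hc hle
  obtain ⟨k, l, hkl, hk, hl⟩ := hex
  have hint : Integrable (fun p : Ω × Ω => Wg τ p.1 p.2) (μ.prod μ) := by
    refine Integrable.of_bound (Wg_measurable τ hτ).aestronglyMeasurable 1 ?_
    refine Filter.Eventually.of_forall fun p => ?_
    rw [Real.norm_eq_abs, abs_of_nonneg (Wg_mem τ _ _).1]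
    exact (Wg_mem τ _ _).2
  rw [setIntegral_pos_iff_support_of_nonneg_ae
    (Filter.Eventually.of_forall fun p => (Wg_mem τ _ _).1) hint.integrableOn]
  refine lt_of_lt_of_le ?_ (measure_mono (s := (A ∩ {x | τ x = k}) ×ˢ (Aᶜ ∩ {x | τ x = l})) ?_)
  · rw [Measure.prod_prod]
    exact ENNReal.mul_pos hk.ne' hl.ne'
  · rintro ⟨x, y⟩ ⟨⟨hx1, hx2⟩, hy1, hy2⟩
    refine ⟨?_, hx1, hy1⟩
    simp only [Set.mem_setOf_eq] at hx2 hy2
    simp only [Function.mem_support, Wg, hx2, hy2]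
    rw [if_pos (Or.inr hkl)]
    exact one_ne_zero

omit [MeasurableSpace Ω] in
/-- outside the exceptional event the visible graph has no isolated vertex and a cut -/
lemma good_struct {n : ℕ} (H1 H2 : Finset (Fin n)) (hd : Disjoint H1 H2) (m : ℕ) (hm : Odd m)
    (x : Fin n → Ω) (hx : x ∉ Bad τ H1 H2 m) :
    (∀ i, ∃ j, j ≠ i ∧ 0 < Wg τ (x i) (x j)) ∧ (∃ u, τ (x u) = m) ∧ (∃ v, ¬ τ (x v) = m) ∧
      ∀ i j, τ (x i) = m → ¬ τ (x j) = m → Wg τ (x i) (x j) = 0 := by
  simp only [Bad, Set.mem_union, Set.mem_iUnion, Set.mem_setOf_eq, not_or, not_exists,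
    Finset.mem_univ, Finset.mem_range, not_forall, not_not, not_le, forall_true_left] at hx
  obtain ⟨h1, h2⟩ := hx
  refine ⟨?_, ?_, ?_, ?_⟩
  · intro i
    obtain ⟨⟨a, ha, ha'⟩, b, hb, hb'⟩ := h2 (τ (x i)) (h1 i)
    have hab : a ≠ b := fun h => Finset.disjoint_left.1 hd ha (h ▸ hb)
    by_cases hai : a = i
    · refine ⟨b, fun h => hab (hai.trans h.symm), ?_⟩
      simp [Wg, hb']
    · refine ⟨a, hai, ?_⟩
      simp [Wg, ha']
  · obtain ⟨⟨a, -, ha'⟩, -⟩ := h2 m (by omega)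
    exact ⟨a, ha'⟩
  · obtain ⟨⟨a, -, ha'⟩, -⟩ := h2 0 (by omega)
    refine ⟨a, ?_⟩
    rw [ha']
    obtain ⟨r, hr⟩ := hm
    omega
  · intro i j hi hj
    have := h1 j
    unfold Wg
    rw [if_neg]
    rintro (h | h)
    · exact hj (h ▸ hi)
    · rw [max_eq_left (by omega), hi] at h
      exact (Nat.not_even_iff_odd.2 hm) h

end Pool.Agent.H131Z.Hit
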